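import Pool.Agent.H37.CV.Targets

/-!
# Board cmv_modules, module GL: the lower bound of `G`
-/

set_option autoImplicit false

open NumberField Filter Topology
open scoped nonZeroDivisors

namespace Pool.Agent.H81.CV

open Pool.Agent.H37.CV Pool.Agent.H28.RC Pool.Agent.H25.HK

section NF

variable {K : Type} [Field K] [NumberField K]

lemma nm_pos {I : Ideal (𝓞 K)} (hI : I ≠ ⊥) : 0 < nm I := by
  unfold nm
  have : Ideal.absNorm I ≠ 0 := fun h => hI (Ideal.absNorm_eq_zero_iff.1 h)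
  exact_mod_cast Nat.pos_of_ne_zero this

lemma nm_mul (I J : Ideal (𝓞 K)) : nm (I * J) = nm I * nm J := by
  unfold nm
  rw [map_mul]
  push_cast
  rfl

lemma nm_pow (I : Ideal (𝓞 K)) (a : ℕ) : nm (I ^ a) = nm I ^ a := by
  unfold nm
  rw [map_pow]
  push_cast
  rfl

lemma np_two (P : PrI K) : 2 ≤ np P := by
  unfold np nm
  have h1 : Ideal.absNorm P.1 ≠ 0 := fun h => P.2.2 (Ideal.absNorm_eq_zero_iff.1 h)
  have h2 : Ideal.absNorm P.1 ≠ 1 := fun h => P.2.1.ne_top (Ideal.absNorm_eq_one_iff.1 h)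
  have h3 : 2 ≤ Ideal.absNorm P.1 := by omega
  exact_mod_cast h3

lemma geom_le {y : ℝ} (hy : 1 < y) (E : ℕ) : ∑ a ∈ Finset.Icc 1 E, (y ^ a)⁻¹ ≤ (y - 1)⁻¹ := by
  have h1 : ∑ a ∈ Finset.Icc 1 E, (y ^ a)⁻¹ = (y - 1)⁻¹ * (1 - (y ^ E)⁻¹) := by
    induction E with
    | zero => simp
    | succ E ih =>
      rw [Finset.sum_Icc_succ_top (by omega), ih]
      have h2 : y - 1 ≠ 0 := by linarith
      have h3 : y ≠ 0 := by linarith
      have h4 : y ^ E ≠ 0 := pow_ne_zero _ h3
      rw [pow_succ]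
      field_simp
      ring
  rw [h1]
  have h2 : 0 < (y - 1)⁻¹ := inv_pos.2 (by linarith)
  have h3 : 0 < (y ^ E)⁻¹ := by positivity
  nlinarith

/-- the ideals whose prime divisors are the elements of `S` -/
lemma sum_pf (S : Finset (PrI K)) : ∀ T : Finset (Ideal (𝓞 K)),
    (∀ I ∈ T, I ≠ ⊥ ∧ ∀ P : PrI K, I ≤ P.1 ↔ P ∈ S) → ∑ I ∈ T, (nm I)⁻¹ ≤ (fS np S)⁻¹ := by
  classical
  induction S using Finset.induction_on with
  | empty =>
    intro T hT
    have h1 : ∀ I ∈ T, I = ⊤ := by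
      intro I hI
      by_contra hc
      obtain ⟨P, hP, hIP⟩ := Ideal.exists_le_maximal I hc
      have hP0 : P ≠ ⊥ := by
        rintro rfl
        exact (hT I hI).1 (le_bot_iff.1 hIP)
      have := ((hT I hI).2 ⟨P, hP.isPrime, hP0⟩).1 hIP
      simp at this
    have h2 : T ⊆ {⊤} := fun I hI => by rw [Finset.mem_singleton]; exact h1 I hI
    calc ∑ I ∈ T, (nm I)⁻¹ ≤ ∑ I ∈ ({⊤} : Finset (Ideal (𝓞 K))), (nm I)⁻¹ := by
          refine Finset.sum_le_sum_of_subset_of_nonneg h2 fun I _ _ => ?_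
          unfold nm; positivity
      _ = (fS np (∅ : Finset (PrI K)))⁻¹ := by
          simp [nm, fS]
  | insert P S hPS ih =>
    intro T hT
    have hP : Prime P.1 := Ideal.prime_of_isPrime P.2.2 P.2.1
    have hdec : ∀ I : Ideal (𝓞 K), ∃ (a : ℕ) (J : Ideal (𝓞 K)), I ∈ T →
        (¬ P.1 ∣ J ∧ I = P.1 ^ a * J) := by
      intro I
      by_cases hI : I ∈ T
      · obtain ⟨a, J, h1, h2⟩ := WfDvdMonoid.max_power_factor (hT I hI).1 hP.irreducible
        exact ⟨a, J, fun _ => ⟨h1, h2⟩⟩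
      · exact ⟨0, ⊤, fun h => absurd h hI⟩
    choose a J hdec using hdec
    have hJ0 : ∀ I ∈ T, J I ≠ ⊥ := by
      intro I hI h
      apply (hT I hI).1
      rw [(hdec I hI).2, h]
      simp
    have ha1 : ∀ I ∈ T, 1 ≤ a I := by
      intro I hI
      by_contra hc
      have h0 : a I = 0 := by omega
      have h1 := (hdec I hI).2
      rw [h0, pow_zero, one_mul] at h1
      apply (hdec I hI).1
      rw [← h1, Ideal.dvd_iff_le]
      exact ((hT I hI).2 P).2 (Finset.mem_insert_self P S)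
    have hJS : ∀ I ∈ T, ∀ Q : PrI K, J I ≤ Q.1 ↔ Q ∈ S := by
      intro I hI Q
      constructor
      · intro h
        have h1 : I ≤ Q.1 := by
          rw [(hdec I hI).2]
          exact Ideal.mul_le_right.trans h
        have h2 := ((hT I hI).2 Q).1 h1
        rcases Finset.mem_insert.1 h2 with h3 | h3
        · exfalso
          subst h3
          exact (hdec I hI).1 (Ideal.dvd_iff_le.2 h)
        · exact h3
      · intro h
        have h1 := ((hT I hI).2 Q).2 (Finset.mem_insert_of_mem h)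
        rw [(hdec I hI).2] at h1
        rcases (Ideal.IsPrime.mul_le Q.2.1).1 h1 with h2 | h2
        · exfalso
          have hQp : Q.1.IsPrime := Q.2.1
          have h3 : P.1 ≤ Q.1 := Ideal.IsPrime.le_of_pow_le h2
          have hPm : P.1.IsMaximal := P.2.1.isMaximal P.2.2
          have h4 : P.1 = Q.1 := hPm.eq_of_le Q.2.1.ne_top h3
          exact hPS ((Subtype.ext h4) ▸ h)
        · exact h2
    set E : ℕ := T.sup a with hE
    set T' : Finset (Ideal (𝓞 K)) := T.image J with hT'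
    have hih := ih T' (by
      intro I' hI'
      obtain ⟨I, hI, rfl⟩ := Finset.mem_image.1 hI'
      exact ⟨hJ0 I hI, hJS I hI⟩)
    have hinj : Set.InjOn (fun I => (a I, J I)) (T : Set (Ideal (𝓞 K))) := by
      intro I hI I' hI' h
      have h1 : a I = a I' := congrArg Prod.fst h
      have h2 : J I = J I' := congrArg Prod.snd h
      rw [(hdec I hI).2, (hdec I' hI').2, h1, h2]
    have hval : ∀ I ∈ T, (nm I)⁻¹ = (np P ^ (a I))⁻¹ * (nm (J I))⁻¹ := by
      intro I hI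
      conv_lhs => rw [(hdec I hI).2]
      rw [nm_mul, nm_pow, mul_inv]
      rfl
    have hnp := np_two P
    calc ∑ I ∈ T, (nm I)⁻¹ = ∑ I ∈ T, (np P ^ (a I))⁻¹ * (nm (J I))⁻¹ :=
          Finset.sum_congr rfl hval
      _ = ∑ x ∈ T.image (fun I => (a I, J I)), (np P ^ x.1)⁻¹ * (nm x.2)⁻¹ := by
          rw [Finset.sum_image hinj]
      _ ≤ ∑ x ∈ Finset.Icc 1 E ×ˢ T', (np P ^ x.1)⁻¹ * (nm x.2)⁻¹ := by
          refine Finset.sum_le_sum_of_subset_of_nonneg ?_ fun x _ _ => ?_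
          · intro x hx
            obtain ⟨I, hI, rfl⟩ := Finset.mem_image.1 hx
            rw [Finset.mem_product, Finset.mem_Icc]
            exact ⟨⟨ha1 I hI, Finset.le_sup hI⟩, Finset.mem_image_of_mem J hI⟩
          · unfold nm
            positivity
      _ = (∑ e ∈ Finset.Icc 1 E, (np P ^ e)⁻¹) * ∑ I ∈ T', (nm I)⁻¹ := by
          rw [Finset.sum_mul_sum, Finset.sum_product]
      _ ≤ (np P - 1)⁻¹ * (fS np S)⁻¹ := by
          refine mul_le_mul (geom_le (by linarith) E) hih ?_ (inv_nonneg.2 (by linarith))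
          exact Finset.sum_nonneg fun I _ => by unfold nm; positivity
      _ = (fS np (insert P S))⁻¹ := by
          unfold fS
          rw [Finset.prod_insert hPS, mul_inv]

lemma pf_fin {I : Ideal (𝓞 K)} (hI : I ≠ ⊥) : {P : PrI K | I ≤ P.1}.Finite := by
  have h1 : {J : Ideal (𝓞 K) | Ideal.absNorm J ≤ Ideal.absNorm I}.Finite :=
    Ideal.finite_setOfPred_absNorm_le _
  refine Set.Finite.of_finite_image (f := Subtype.val) (h1.subset ?_)
    Subtype.val_injective.injOn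
  rintro _ ⟨P, hP, rfl⟩
  have h2 : Ideal.absNorm P.1 ∣ Ideal.absNorm I := Ideal.absNorm_dvd_absNorm_of_le hP
  have h3 : Ideal.absNorm I ≠ 0 := fun h => hI (Ideal.absNorm_eq_zero_iff.1 h)
  exact Nat.le_of_dvd (Nat.pos_of_ne_zero h3) h2

lemma mem_pf {I : Ideal (𝓞 K)} (hI : I ≠ ⊥) (P : PrI K) : P ∈ pf I ↔ I ≤ P.1 := by
  classical
  unfold pf
  rw [dif_pos (pf_fin hI)]
  simp

lemma mem_PM (M : ℝ) (P : PrI K) : P ∈ PM K M ↔ np P ≤ M := by
  classical
  have hfin : {P : PrI K | np P ≤ M}.Finite := by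
    have h1 : {J : Ideal (𝓞 K) | Ideal.absNorm J ≤ ⌊M⌋₊}.Finite :=
      Ideal.finite_setOfPred_absNorm_le _
    refine Set.Finite.of_finite_image (f := Subtype.val) (h1.subset ?_)
      Subtype.val_injective.injOn
    rintro _ ⟨P, hP, rfl⟩
    exact Nat.le_floor hP
  unfold PM
  rw [dif_pos hfin]
  simp

lemma nS_pf {I : Ideal (𝓞 K)} (hI : I ≠ ⊥) : nS np (pf I) ≤ nm I := by
  classical
  have h1 : ∏ P ∈ (pf I).map ⟨Subtype.val, Subtype.val_injective⟩, P ∣ I := by
    refine Finset.prod_primes_dvd I ?_ ?_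
    · intro P hP
      obtain ⟨Q, -, rfl⟩ := Finset.mem_map.1 hP
      exact Ideal.prime_of_isPrime Q.2.2 Q.2.1
    · intro P hP
      obtain ⟨Q, hQ, rfl⟩ := Finset.mem_map.1 hP
      exact Ideal.dvd_iff_le.2 ((mem_pf hI Q).1 hQ)
  rw [Finset.prod_map] at h1
  have h2 : Ideal.absNorm (∏ P ∈ pf I, P.1) ∣ Ideal.absNorm I := map_dvd _ h1
  have h3 : Ideal.absNorm I ≠ 0 := fun h => hI (Ideal.absNorm_eq_zero_iff.1 h)
  have h4 := Nat.le_of_dvd (Nat.pos_of_ne_zero h3) h2
  have h5 : nS np (pf I) = ((Ideal.absNorm (∏ P ∈ pf I, P.1) : ℕ) : ℝ) := by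
    unfold nS np nm
    rw [map_prod]
    push_cast
    rfl
  rw [h5]
  unfold nm
  exact_mod_cast h4

variable (K) in
/-- the nonzero ideals of norm at most `m` -/
noncomputable def TT (m : ℕ) : Finset (Ideal (𝓞 K)) :=
  (Set.Finite.subset (s := {I : Ideal (𝓞 K) | Ideal.absNorm I ≤ m})
    (t := {I : Ideal (𝓞 K) | I ≠ ⊥ ∧ Ideal.absNorm I ≤ m})
    (Ideal.finite_setOfPred_absNorm_le (S := 𝓞 K) m) (fun _ h => h.2)).toFinset

lemma mem_TT {m : ℕ} {I : Ideal (𝓞 K)} : I ∈ TT K m ↔ I ≠ ⊥ ∧ Ideal.absNorm I ≤ m := by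
  unfold TT
  simp

/-- comparison of `G` with the sum over the ideals -/
lemma sum_TT_le {M : ℝ} {m : ℕ} (hm : (m : ℝ) ≤ M) :
    ∑ I ∈ TT K m, (nm I)⁻¹ ≤ GS np (PM K M) M := by
  classical
  unfold GS
  rw [← Finset.sum_fiberwise_of_maps_to (s := TT K m) (t := DS np (PM K M) M) (g := pf)]
  · refine Finset.sum_le_sum fun S hS => ?_
    refine sum_pf S _ fun I hI => ?_
    rw [Finset.mem_filter] at hI
    have hI0 := (mem_TT.1 hI.1).1
    exact ⟨hI0, fun P => by rw [← mem_pf hI0, hI.2]⟩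
  · intro I hI
    obtain ⟨hI0, hIm⟩ := mem_TT.1 hI
    have h1 : nm I ≤ M := by
      refine le_trans ?_ hm
      unfold nm
      exact_mod_cast hIm
    unfold DS
    rw [Finset.mem_filter, Finset.mem_powerset]
    refine ⟨fun P hP => ?_, (nS_pf hI0).trans h1⟩
    rw [mem_PM]
    have h2 : Ideal.absNorm P.1 ∣ Ideal.absNorm I :=
      Ideal.absNorm_dvd_absNorm_of_le ((mem_pf hI0 P).1 hP)
    have h3 : Ideal.absNorm I ≠ 0 := fun h => hI0 (Ideal.absNorm_eq_zero_iff.1 h)
    have h4 := Nat.le_of_dvd (Nat.pos_of_ne_zero h3) h2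
    refine le_trans ?_ h1
    unfold np nm
    exact_mod_cast h4

lemma card_TT_tendsto :
    Tendsto (fun n : ℕ => ((TT K n).card : ℝ) / n) atTop (𝓝 (rho K)) := by
  have h := (NumberField.Ideal.tendsto_norm_le_div_atTop₀ K).comp tendsto_natCast_atTop_atTop
  refine (h.congr fun n => ?_)
  simp only [Function.comp_apply]
  have h1 : Nat.card {I : (Ideal (𝓞 K))⁰ // (Ideal.absNorm (I : Ideal (𝓞 K)) : ℝ) ≤ (n : ℝ)} =
      (TT K n).card := by
    rw [← Fintype.card_coe, ← Nat.card_eq_fintype_card]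
    refine Nat.card_congr
      { toFun := fun I => ⟨I.1.1, mem_TT.2 ⟨nonZeroDivisors.coe_ne_zero I.1, by
          exact_mod_cast I.2⟩⟩
        invFun := fun I => ⟨⟨I.1, mem_nonZeroDivisors_of_ne_zero (mem_TT.1 I.2).1⟩, by
          exact_mod_cast (mem_TT.1 I.2).2⟩
        left_inv := fun I => rfl
        right_inv := fun I => rfl }
  rw [h1]

lemma tele (N m : ℕ) (hN : 1 ≤ N) (hNm : N ≤ m) :
    ∑ n ∈ Finset.Ico N m, (1 : ℝ) / (n * (n + 1)) ≤ 1 / N := by
  have h : ∀ m : ℕ, N ≤ m → ∑ n ∈ Finset.Ico N m, (1 : ℝ) / (n * (n + 1)) = 1 / N - 1 / m := by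
    intro m hm
    induction m, hm using Nat.le_induction with
    | base => simp
    | succ m hm ih =>
      rw [Finset.sum_Ico_succ_top hm, ih]
      have h1 : (0 : ℝ) < m := by exact_mod_cast (by omega : 0 < m)
      push_cast
      field_simp
      ring
  rw [h m hNm]
  have : (0 : ℝ) ≤ 1 / m := by positivity
  linarith

/-- partial summation -/
lemma sum_TT_ge (m : ℕ) :
    ∑ n ∈ Finset.Ico 1 m, ((TT K n).card : ℝ) / (n * (n + 1)) ≤ ∑ I ∈ TT K m, (nm I)⁻¹ := by
  classical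
  have h1 : ∀ n ∈ Finset.Ico 1 m, ((TT K n).card : ℝ) / (n * (n + 1)) =
      ∑ I ∈ TT K m, (if Ideal.absNorm I ≤ n then (1 : ℝ) / (n * (n + 1)) else 0) := by
    intro n hn
    rw [Finset.mem_Ico] at hn
    rw [← Finset.sum_filter, Finset.sum_const, nsmul_eq_mul]
    have h2 : (TT K m).filter (fun I => Ideal.absNorm I ≤ n) = TT K n := by
      ext I
      rw [Finset.mem_filter, mem_TT, mem_TT]
      constructor
      · rintro ⟨⟨h3, -⟩, h4⟩; exact ⟨h3, h4⟩
      · rintro ⟨h3, h4⟩; exact ⟨⟨h3, by omega⟩, h4⟩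
    rw [h2]
    ring
  rw [Finset.sum_congr rfl h1, Finset.sum_comm]
  refine Finset.sum_le_sum fun I hI => ?_
  obtain ⟨hI0, hIm⟩ := mem_TT.1 hI
  have h3 : Ideal.absNorm I ≠ 0 := fun h => hI0 (Ideal.absNorm_eq_zero_iff.1 h)
  rw [← Finset.sum_filter]
  have h4 : (Finset.Ico 1 m).filter (fun n => Ideal.absNorm I ≤ n) =
      Finset.Ico (Ideal.absNorm I) m := by
    ext n
    rw [Finset.mem_filter, Finset.mem_Ico, Finset.mem_Ico]
    omega
  rw [h4]
  refine (tele _ m (by omega) hIm).trans (le_of_eq ?_)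
  unfold nm
  rw [one_div]

lemma harm_ge (n₀ m : ℕ) (h : n₀ ≤ m) :
    Real.log (m + 1) - Real.log (n₀ + 1) ≤ ∑ n ∈ Finset.Ico n₀ m, (1 : ℝ) / (n + 1) := by
  induction m, h using Nat.le_induction with
  | base => simp
  | succ m hm ih =>
    rw [Finset.sum_Ico_succ_top hm]
    have h1 : (0 : ℝ) < (m : ℝ) + 1 := by positivity
    have h2 : Real.log (((m + 1 : ℕ) : ℝ) + 1) - Real.log (m + 1) ≤ 1 / ((m : ℝ) + 1) := by
      push_cast
      rw [← Real.log_div (by positivity) h1.ne']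
      have h3 : ((m : ℝ) + 1 + 1) / (m + 1) = 1 + 1 / (m + 1) := by field_simp
      rw [h3]
      have h4 := Real.log_le_sub_one_of_pos (show (0 : ℝ) < 1 + 1 / (m + 1) by positivity)
      linarith
    linarith

end NF

theorem pf_GL : T_GL := by
  classical
  intro K _ _ ε hε
  have hρ : 0 < rho K := dedekindZeta_residue_pos K
  set δ : ℝ := min ε 1 / 2 with hδ
  have hδ0 : 0 < δ := by rw [hδ]; positivity
  have hδε : δ ≤ ε / 2 := by rw [hδ]; have := min_le_left ε 1; linarith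
  have hδ1 : δ ≤ 1 / 2 := by rw [hδ]; have := min_le_right ε 1; linarith
  have hev := (card_TT_tendsto (K := K)).eventually
    (eventually_ge_nhds (show (1 - δ) * rho K < rho K by nlinarith))
  obtain ⟨n₀, hn₀⟩ := eventually_atTop.1 hev
  set N := max n₀ 1 with hN
  have hN1 : 1 ≤ N := le_max_right _ _
  have hcard : ∀ n : ℕ, N ≤ n → (1 - δ) * rho K * n ≤ (TT K n).card := by
    intro n hn
    have h1 := hn₀ n (le_trans (le_max_left _ _) hn)
    have h2 : (0 : ℝ) < n := by exact_mod_cast (by omega : 0 < n)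
    rwa [le_div_iff₀ h2] at h1
  set L : ℝ := Real.log (N + 1) with hL
  have hL0 : 0 ≤ L := Real.log_nonneg (by have : (0 : ℝ) ≤ N := by positivity
                                          linarith)
  refine ⟨max (N + 1) (Real.exp (2 * L / ε)), ?_, fun M hM => ?_⟩
  · refine le_trans ?_ (le_max_left _ _)
    have : (0 : ℝ) ≤ N := by positivity
    linarith
  have hM1 : (N : ℝ) + 1 ≤ M := (le_max_left _ _).trans hM
  have hM2 : Real.exp (2 * L / ε) ≤ M := (le_max_right _ _).trans hM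
  have hN0 : (0 : ℝ) ≤ N := by positivity
  have hM0 : 0 < M := by linarith
  have hlogM : 2 * L / ε ≤ Real.log M := by rwa [Real.le_log_iff_exp_le hM0]
  have hlog0 : 0 ≤ Real.log M := Real.log_nonneg (by linarith)
  set m := ⌊M⌋₊ with hm
  have hmM : (m : ℝ) ≤ M := Nat.floor_le hM0.le
  have hMm : M < m + 1 := Nat.lt_floor_add_one M
  have hNm : N ≤ m := Nat.le_floor (by linarith)
  refine le_trans ?_ (sum_TT_le hmM)
  refine le_trans ?_ (sum_TT_ge m)
  have h1 : ∑ n ∈ Finset.Ico N m, (1 - δ) * rho K * (1 / ((n : ℝ) + 1)) ≤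
      ∑ n ∈ Finset.Ico 1 m, ((TT K n).card : ℝ) / (n * (n + 1)) := by
    calc ∑ n ∈ Finset.Ico N m, (1 - δ) * rho K * (1 / ((n : ℝ) + 1))
        ≤ ∑ n ∈ Finset.Ico N m, ((TT K n).card : ℝ) / (n * (n + 1)) := by
          refine Finset.sum_le_sum fun n hn => ?_
          rw [Finset.mem_Ico] at hn
          have h2 := hcard n hn.1
          have h3 : (0 : ℝ) < n := by exact_mod_cast (by omega : 0 < n)
          rw [le_div_iff₀ (by positivity)]
          calc (1 - δ) * rho K * (1 / ((n : ℝ) + 1)) * (n * (n + 1))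
              = (1 - δ) * rho K * n := by field_simp
            _ ≤ _ := h2
      _ ≤ _ := by
          refine Finset.sum_le_sum_of_subset_of_nonneg (Finset.Ico_subset_Ico_left hN1)
            fun n _ _ => by positivity
  refine le_trans ?_ h1
  rw [← Finset.mul_sum]
  have h2 := harm_ge N m hNm
  have h3 : Real.log M - L ≤ ∑ n ∈ Finset.Ico N m, (1 : ℝ) / (n + 1) := by
    refine le_trans ?_ h2
    have := Real.log_le_log hM0 hMm.le
    linarith
  have h4 : (1 - δ) * rho K * (Real.log M - L) ≤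
      (1 - δ) * rho K * ∑ n ∈ Finset.Ico N m, (1 : ℝ) / (n + 1) :=
    mul_le_mul_of_nonneg_left h3 (mul_nonneg (by linarith) hρ.le)
  refine le_trans ?_ h4
  have h5 : L ≤ ε / 2 * Real.log M := by
    rw [div_le_iff₀ hε] at hlogM
    linarith
  have h6 : (1 - ε) * Real.log M ≤ (1 - δ) * (Real.log M - L) := by
    nlinarith
  calc (1 - ε) * rho K * Real.log M = rho K * ((1 - ε) * Real.log M) := by ring
    _ ≤ rho K * ((1 - δ) * (Real.log M - L)) := by gcongr
    _ = _ := by ring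

end Pool.Agent.H81.CV
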